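import Pool.Agent.W505.FE.Glob
import Pool.Agent.W505.FE.MaxQ
import Pool.Agent.V7H9.DT.Spec

/-! # Project DT: piece GL -/

set_option autoImplicit false

namespace Pool.Agent.V7H34.DT

open Filter Finset EvenVol Pool.Agent.H112R4.VL Pool.Agent.W709.VC Pool.Agent.W707.FE
open Pool.Agent.W505.FE (offA path_short absorb)
open scoped Real Topology

theorem gl (hQ : S_MAXQ) : Pool.Agent.V7H9.DT.S_GL := by
  intro A α₀ b₀ η hA hC
  have hp := Real.pi_pos
  have hA' : (4 : ℝ) ≤ A := by exact_mod_cast hA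
  set m : ℝ := (A : ℝ) / 2 with hm
  have hm2 : 2 ≤ m := by rw [hm]; linarith
  have hm0 : 0 < m := by linarith
  have hAm : (A : ℝ) = 2 * m := by rw [hm]; ring
  set V := pot m α₀ b₀ η with hVd
  set Λ := GapVol.lob (π / 6) with hΛ
  have hΛ0 : 0 < Λ := lob6_pos
  have hV10 : 10 * Λ ≤ V := vol_ge Pool.Agent.W402.VC.max Pool.Agent.W305.VC.ten hm2 hC
  obtain ⟨c, hc, hq⟩ := hQ m α₀ b₀ η hm2 hC
  have hη := hC.hη
  have hα0 := hC.hα
  have hb0 := hC.hb
  have hpm : 0 < π / m := by positivity
  have hpm2 : π / m ≤ π / 2 := div_le_div_of_nonneg_left hp.le (by norm_num) hm2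
  have hbm : 0 < π / m - b₀ := by
    have : b₀ < π / m := by
      rw [lt_div_iff₀ hm0]
      linarith [hC.hbm]
    linarith
  have hαb : 0 < π - α₀ - b₀ := by linarith [hC.hαb]
  refine ⟨min (π / m - b₀) ((π - α₀ - b₀) / 3), lt_min hbm (by linarith), ?_⟩
  intro ρ hρ hρ0
  have hρ1 : ρ ≤ π / m - b₀ := hρ0.trans (min_le_left _ _)
  have hρ2 : ρ ≤ (π - α₀ - b₀) / 3 := hρ0.trans (min_le_right _ _)
  set δa : ℝ := min (min (c * (π / m - b₀) ^ 2) (c * ((π - α₀ - b₀) ^ 2 / 2))) Λ with hδa
  have hδa0 : 0 < δa := lt_min (lt_min (by positivity) (by positivity)) hΛ0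
  have hd1 : δa ≤ c * (π / m - b₀) ^ 2 := (min_le_left _ _).trans (min_le_left _ _)
  have hd2 : δa ≤ c * ((π - α₀ - b₀) ^ 2 / 2) := (min_le_left _ _).trans (min_le_right _ _)
  have hd3 : δa ≤ Λ := min_le_right _ _
  set δ : ℝ := min (δa / 2) (min (c * (ρ / 2) ^ 2) (c * b₀ ^ 2)) with hδ
  have hδ0 : 0 < δ := lt_min (by positivity) (lt_min (by positivity) (by positivity))
  have hδ1 : δ ≤ δa / 2 := min_le_left _ _
  have hδ2 : δ ≤ c * (ρ / 2) ^ 2 := (min_le_right _ _).trans (min_le_left _ _)
  have hδ3 : δ ≤ c * b₀ ^ 2 := (min_le_right _ _).trans (min_le_right _ _)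
  set h : ℝ := min η (min (Λ / (2 * π)) (δa / (8 * π * m))) with hhd
  have hh : 0 < h := lt_min hη (lt_min (by positivity) (by positivity))
  have hhη : h ≤ η := min_le_left _ _
  have hh1 : 2 * π * h ≤ Λ := by
    have h1 : h ≤ Λ / (2 * π) := le_trans (min_le_right _ _) (min_le_left _ _)
    rw [le_div_iff₀ (by positivity)] at h1
    linarith
  have hh2 : 8 * π * m * h ≤ δa := by
    have h1 : h ≤ δa / (8 * π * m) := le_trans (min_le_right _ _) (min_le_right _ _)
    rw [le_div_iff₀ (by positivity)] at h1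
    linarith
  set ε : ℝ := δ / (24 * π) with hε
  have hε0 : 0 < ε := by positivity
  -- off-critical estimates
  have wa : ∀ α y : ℝ, 0 ≤ α → α ≤ π → h ≤ y → y ≤ η →
      pot m α (min (π / m) (π - α)) y ≤ V - δ := by
    intro α y a1 a2 a3 a4
    have := offA hm2 hC hq hc hh hh1 hd1 hd2 hd3 a1 a2 a3 a4
    linarith
  have wb : ∀ α b : ℝ, 0 ≤ α → α ≤ π → min (π / m) (π - α) ≤ b → b ≤ π →
      pot m α b h ≤ V - δ := by
    intro α b a1 a2 a3 a4
    have k1 := Pool.Agent.W305.VC.real m α b (min (π / m) (π - α)) h hm0.le hh a1 a2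
      (le_min hpm.le (by linarith)) a3 a4
    have k2 := offA hm2 hC hq hc hh hh1 hd1 hd2 hd3 a1 a2 le_rfl hhη
    linarith
  have wc : ∀ α b : ℝ, 0 ≤ α → α ≤ π → -π ≤ b → b ≤ min (π / m) (π - α) →
      (ρ / 2 < |α - α₀| ∨ ρ ≤ |b - b₀|) → pot m α b η ≤ V - δ := by
    intro α b a1 a2 a3 a4 a5
    have q1 := min_le_left (π / m) (π - α)
    have q2 := min_le_right (π / m) (π - α)
    rcases le_total 0 b with hb | hb
    · have k1 := hq α b a1 hb (by linarith) (by linarith)
      have k2 : (ρ / 2) ^ 2 ≤ (α - α₀) ^ 2 + (b - b₀) ^ 2 := by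
        rcases a5 with a5 | a5
        · have : (ρ / 2) ^ 2 ≤ (α - α₀) ^ 2 := by
            rw [← sq_abs (α - α₀)]
            exact pow_le_pow_left₀ (by linarith) a5.le 2
          linarith [sq_nonneg (b - b₀)]
        · have : (ρ / 2) ^ 2 ≤ (b - b₀) ^ 2 := by
            rw [← sq_abs (b - b₀)]
            exact pow_le_pow_left₀ (by linarith) (by linarith) 2
          linarith [sq_nonneg (α - α₀)]
      have k3 := mul_le_mul_of_nonneg_left k2 hc.le
      linarith
    · have k1 := Pool.Agent.W305.VC.neg m α b η hm0.le hη a1 a2 a3 hb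
      have k2 := hq α 0 a1 le_rfl (by linarith) (by linarith)
      have k3 : 0 ≤ c * (α - α₀) ^ 2 := by positivity
      have k4 : c * ((α - α₀) ^ 2 + (0 - b₀) ^ 2) = c * (α - α₀) ^ 2 + c * b₀ ^ 2 := by ring
      linarith
  set K1 : ℝ := Real.sinh h * h + 1 * (2 * π) + 1 * η + 1 * (2 * π) + Real.sinh η * η with hK1
  have hsh : 0 ≤ Real.sinh h := Real.sinh_nonneg_iff.2 hh.le
  have hsη : 0 ≤ Real.sinh η := Real.sinh_nonneg_iff.2 hη.le
  have hK10 : 0 < K1 := by
    have : 0 ≤ Real.sinh h * h := by positivity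
    have : 0 ≤ Real.sinh η * η := by positivity
    rw [hK1]
    positivity
  set K : ℝ := 2 * K1 + 4 * π with hK
  have hK0 : 0 < K := by positivity
  refine ⟨δ / (8 * π), h, by positivity, hh, ?_⟩
  have e1 := pb_le Pool.Agent.W440.VC.rs Pool.Agent.W540.VC.brf_asymp A (h := h) (H := η) hh hε0
  have e2 := Pool.Agent.W540.VC.vert A ε hε0
  have e3 := Pool.Agent.W12.VCSmall.small A ε hε0
  filter_upwards [e1, e2, e3, absorb K hε0, eventually_ge_atTop 2] with N h1 h2 h3 h5 hN2
  have hN0 : 0 < N := by omega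
  have hNp : (0 : ℝ) < N := by exact_mod_cast hN0
  have hN1 : (1 : ℝ) ≤ N := by exact_mod_cast hN0
  have hpN : 0 < N / (4 * π) := by positivity
  set E := Real.exp (N / (4 * π) * (V - δ) + ε * N) with hE
  have hE0 : 0 < E := Real.exp_pos _
  have hVδ : 0 ≤ V - δ := by linarith
  have hVN : 0 ≤ N / (4 * π) * (V - δ) := by positivity
  -- the final estimate
  have hKE : K * E ≤ Real.exp (N / (4 * π) * V - δ / (8 * π) * N) := by
    have q1 : K ≤ Real.exp (ε * N) := le_trans (le_mul_of_one_le_left hK0.le hN1) h5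
    calc K * E ≤ Real.exp (ε * N) * E := mul_le_mul_of_nonneg_right q1 hE0.le
      _ = Real.exp (N / (4 * π) * (V - δ) + ε * N + ε * N) := by
        rw [hE, ← Real.exp_add]
        congr 1
        ring
      _ ≤ _ := by
        apply Real.exp_le_exp.2
        have q2 : N / (4 * π) * V - δ / (8 * π) * N -
            (N / (4 * π) * (V - δ) + ε * N + ε * N) = N * δ / (24 * π) := by
          rw [hε]
          field_simp
          ring
        have q3 : 0 ≤ N * δ / (24 * π) := by positivity
        linarith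
  intro n d hnd
  set α : ℝ := 2 * π * d / N with hα
  have hα00 : 0 ≤ α := by positivity
  rcases Nat.lt_or_ge (2 * n + 1) N with hs | hs
  · -- small n
    have hαπ : π ≤ α := by
      rw [hα, le_div_iff₀ hNp]
      have hNd : (N : ℝ) ≤ 2 * (d : ℝ) := by
        have : N ≤ 2 * d := by omega
        exact_mod_cast this
      have := mul_le_mul_of_nonneg_left hNd hp.le
      linarith
    constructor
    · intro hcl
      exfalso
      have := (abs_le.1 hcl).2
      linarith
    · intro _
      have k1 : Cn A N n ≤ Real.exp (ε * N) := by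
        unfold Cn
        rw [Gm_eq s_gam hN2 hs]
        exact h3 n hs
      have k2 : Real.exp (ε * N) ≤ E := by
        apply Real.exp_le_exp.2
        linarith
      have k3 := Gm_norm s_gam (A := A) hN2 (n := n) (by omega) hh
      have hd : N - 1 - n = d := by omega
      rw [hd] at k3
      have k4 : ‖brf (v0 N) n‖ ^ 2 * ‖rect (Fint A N d) (-π) π (-h) h‖ = 4 * π * Cn A N n := by
        unfold Cn
        rw [k3]
        field_simp
      rw [k4]
      calc 4 * π * Cn A N n ≤ 4 * π * E :=
            mul_le_mul_of_nonneg_left (k1.trans k2) (by positivity)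
        _ ≤ K * E := by
            apply mul_le_mul_of_nonneg_right _ hE0.le
            rw [hK]
            linarith
        _ ≤ _ := hKE
  · have hαπ : α ≤ π := by
      rw [hα, div_le_iff₀ hNp]
      have hNd : 2 * (d : ℝ) ≤ N := by
        have : 2 * d ≤ N := by omega
        exact_mod_cast this
      have := mul_le_mul_of_nonneg_left hNd hp.le
      linarith
    set b := min (π / m) (π - α) with hb
    have hbb0 : 0 ≤ b := le_min hpm.le (by linarith)
    have hbπ : b ≤ π := le_trans (min_le_right _ _) (by linarith)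
    have hnorm : ∀ z : ℂ, ‖((‖brf (v0 N) n‖ ^ 2 : ℝ) : ℂ) * Fint A N d z‖ =
        ‖brf (v0 N) n‖ ^ 2 * ‖Fint A N d z‖ := by
      intro z
      rw [norm_mul, Complex.norm_real, Real.norm_eq_abs, abs_of_nonneg (by positivity)]
    set f : ℂ → ℂ := fun z => ((‖brf (v0 N) n‖ ^ 2 : ℝ) : ℂ) * Fint A N d z with hf
    have g1 : ∀ y : ℝ, 0 ≤ y → y ≤ h → ‖f (-π + y * Complex.I)‖ ≤ Real.sinh h * E := by
      intro y hy hy'
      rw [hf, hnorm]
      refine le_trans (h2 n d hnd y hy).2 ?_
      have hs1 : Real.sinh y ≤ Real.sinh h := Real.sinh_le_sinh.2 hy'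
      apply mul_le_mul hs1 _ (Real.exp_pos _).le hsh
      apply Real.exp_le_exp.2
      have hmy : m * y ≤ m * h := mul_le_mul_of_nonneg_left hy' hm0.le
      have h7 : (A : ℝ) * N * y / 2 ≤ N / (4 * π) * (V - δ) := by
        have e : (A : ℝ) * N * y / 2 = N / (4 * π) * (4 * π * (m * y)) := by
          rw [hAm]
          field_simp
        rw [e]
        apply mul_le_mul_of_nonneg_left _ hpN.le
        have e' : 4 * π * (m * h) = 8 * π * m * h / 2 := by ring
        have e'' : 4 * π * (m * y) ≤ 4 * π * (m * h) :=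
          mul_le_mul_of_nonneg_left hmy (by positivity)
        linarith
      linarith
    have g2 : ∀ x : ℝ, b ≤ x → x ≤ π → ‖f (-x + h * Complex.I)‖ ≤ E := by
      intro x hx hx'
      rw [hf, hnorm]
      refine le_trans (h1 n d hnd x h le_rfl hhη) ?_
      apply Real.exp_le_exp.2
      have := mul_le_mul_of_nonneg_left (wb α x hα00 hαπ hx hx') hpN.le
      linarith
    have g3 : ∀ y : ℝ, h ≤ y → y ≤ η → ‖f (-b + y * Complex.I)‖ ≤ E := by
      intro y hy hy'
      rw [hf, hnorm]
      refine le_trans (h1 n d hnd b y hy hy') ?_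
      apply Real.exp_le_exp.2
      have := mul_le_mul_of_nonneg_left (wa α y hα00 hαπ hy hy') hpN.le
      linarith
    have g4 : ∀ x : ℝ, -π ≤ x → x ≤ b → (ρ / 2 < |α - α₀| ∨ ρ ≤ |x - b₀|) →
        ‖f (-x + η * Complex.I)‖ ≤ E := by
      intro x hx hx' hx''
      rw [hf, hnorm]
      refine le_trans (h1 n d hnd x η hhη le_rfl) ?_
      apply Real.exp_le_exp.2
      have := mul_le_mul_of_nonneg_left (wc α x hα00 hαπ hx hx' hx'') hpN.le
      linarith
    have g5 : ∀ y : ℝ, 0 ≤ y → y ≤ η → ‖f (π + y * Complex.I)‖ ≤ Real.sinh η * E := by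
      intro y hy hy'
      rw [hf, hnorm]
      refine le_trans (h2 n d hnd y hy).1 ?_
      have hs1 : Real.sinh y ≤ Real.sinh η := Real.sinh_le_sinh.2 hy'
      apply mul_le_mul hs1 _ (Real.exp_pos _).le hsη
      apply Real.exp_le_exp.2
      linarith
    have hrect : rect (Fint A N d) (-π) π (-h) h = -2 * path (Fint A N d) h η b :=
      Pool.Agent.W634.VC.path A N d hN2 h η b hh hhη (by rw [abs_of_nonneg hbb0]; exact hbπ)
    have hpf : path f h η b = ((‖brf (v0 N) n‖ ^ 2 : ℝ) : ℂ) * path (Fint A N d) h η b :=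
      path_mul _ _ h η b
    have hbr0 : 0 ≤ ‖brf (v0 N) n‖ ^ 2 := by positivity
    constructor
    · intro hρα
      have hbρ : b₀ + ρ ≤ b := by
        apply le_min (by linarith)
        have := (abs_le.1 hρα).2
        linarith
      have hfc : Continuous (fun x : ℝ => f (x + η * Complex.I)) :=
        continuous_const.mul (Fint_contAt A hN0 hη)
      have key := path_short (f := f) hh.le hhη (b := b) (b₀ := b₀) (ρ := ρ) hbπ hρ.le hbρ
        (by linarith) hfc g1 g2 g3 (fun x hx hx' hx'' => g4 x hx hx' (Or.inr hx'')) g5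
      have hI : (∫ x in (-ρ)..ρ, f (-b₀ + x + η * Complex.I)) = ((‖brf (v0 N) n‖ ^ 2 : ℝ) : ℂ) *
          ∫ x in (-ρ)..ρ, Fint A N d (-b₀ + x + η * Complex.I) := by
        rw [hf]
        exact intervalIntegral.integral_const_mul _ _
      have k1 : ‖path f h η b - ∫ x in (-ρ)..ρ, f (-b₀ + x + η * Complex.I)‖ ≤ K1 * E := by
        refine le_trans key ?_
        have t1 : E * (π - b) ≤ E * (2 * π) := mul_le_mul_of_nonneg_left (by linarith) hE0.le
        have t2 : E * (η - h) ≤ E * η := mul_le_mul_of_nonneg_left (by linarith) hE0.le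
        have t3 : E * (π + b - 2 * ρ) ≤ E * (2 * π) :=
          mul_le_mul_of_nonneg_left (by linarith) hE0.le
        have t4 : K1 * E = Real.sinh h * E * h + E * (2 * π) + E * η + E * (2 * π) +
          Real.sinh η * E * η := by rw [hK1]; ring
        rw [t4]
        linarith
      have k2 : ‖brf (v0 N) n‖ ^ 2 * ‖rect (Fint A N d) (-π) π (-h) h +
          2 * ∫ x in (-ρ)..ρ, Fint A N d (-b₀ + x + η * Complex.I)‖ =
          2 * ‖path f h η b - ∫ x in (-ρ)..ρ, f (-b₀ + x + η * Complex.I)‖ := by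
        rw [hI, hpf, hrect, ← mul_sub, norm_mul, Complex.norm_real, Real.norm_eq_abs,
          abs_of_nonneg hbr0]
        have : -2 * path (Fint A N d) h η b +
            2 * ∫ x in (-ρ)..ρ, Fint A N d (-b₀ + x + η * Complex.I) =
            -2 * (path (Fint A N d) h η b -
              ∫ x in (-ρ)..ρ, Fint A N d (-b₀ + x + η * Complex.I)) := by ring
        rw [this, norm_mul]
        simp only [norm_neg, Complex.norm_ofNat]
        ring
      rw [k2]
      calc 2 * ‖path f h η b - ∫ x in (-ρ)..ρ, f (-b₀ + x + η * Complex.I)‖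
          ≤ 2 * (K1 * E) := by linarith
        _ ≤ K * E := by
            have : 0 ≤ 4 * π * E := by positivity
            rw [hK]
            linarith
        _ ≤ _ := hKE
    · intro hρα
      have key := path_le (f := f) hh.le hhη (b := b) (by linarith) hbπ g1 g2 g3
        (fun x hx hx' => g4 x hx hx' (Or.inl hρα)) g5
      have k1 : ‖path f h η b‖ ≤ K1 * E := by
        refine le_trans key ?_
        have t1 : E * (π - b) ≤ E * (2 * π) := mul_le_mul_of_nonneg_left (by linarith) hE0.le
        have t2 : E * (η - h) ≤ E * η := mul_le_mul_of_nonneg_left (by linarith) hE0.le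
        have t3 : E * (π + b) ≤ E * (2 * π) := mul_le_mul_of_nonneg_left (by linarith) hE0.le
        have t4 : K1 * E = Real.sinh h * E * h + E * (2 * π) + E * η + E * (2 * π) +
          Real.sinh η * E * η := by rw [hK1]; ring
        rw [t4]
        linarith
      have k2 : ‖brf (v0 N) n‖ ^ 2 * ‖rect (Fint A N d) (-π) π (-h) h‖ =
          2 * ‖path f h η b‖ := by
        rw [hpf, hrect, norm_mul, norm_mul, Complex.norm_real, Real.norm_eq_abs,
          abs_of_nonneg hbr0]
        simp only [norm_neg, Complex.norm_ofNat]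
        ring
      rw [k2]
      calc 2 * ‖path f h η b‖ ≤ 2 * (K1 * E) := by linarith
        _ ≤ K * E := by
            have : 0 ≤ 4 * π * E := by positivity
            rw [hK]
            linarith
        _ ≤ _ := hKE

theorem t_GL : Pool.Agent.V7H9.DT.S_GL := gl Pool.Agent.W505.FE.maxq

end Pool.Agent.V7H34.DT
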